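import Pool.Agent.H61.KU.TT
import Pool.Agent.H24.LB.PL1
import Pool.Agent.H4.LB.S2H

/-!
# Kuiper board, module T3
-/

open Topology Set
open Pool.Agent.H59 Pool.Agent.H64.LB Pool.Agent.H24.LB Pool.Agent.H61.KU
open scoped unitInterval

namespace Pool.Agent.H90.KU

theorem pf_t3 (hHM : T_HM) (hE : T_S2E) (_hPN : T_PNT) (hh : T_HOM) (hX : T_XHO) (hN : T_T3N) :
    T_T3 := by
  intro α β hdis hα hβ
  obtain ⟨hpc, -, -, -, -, hcp, ht2⟩ := hX
  have hcS : CompactSpace S2 := compact_S2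
  -- the map S2 → Sph 2
  have hbij : Function.Bijective (HH.map (ZMod 2) 2 S2.toSph) := by
    obtain ⟨e, he⟩ := hE
    refine Pool.Agent.H4.LB.bij_of_homotopic hHM (ZMod 2) S2.toSph e.invFun ?_ ?_ 2
    · rw [← he]
      exact e.left_inv
    · rw [← he]
      exact e.right_inv
  set α1 : C(S2, PN 2) := α.comp S2.toSph with hα1
  set β1 : C(S2, PN 2) := β.comp S2.toSph with hβ1
  have hi1 : Function.Injective (HH.map (ZMod 2) 2 α1) := by
    intro x y hxy
    rw [hα1, HH.map_comp, HH.map_comp] at hxy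
    exact hbij.1 (hα hxy)
  have hi2 : Function.Injective (HH.map (ZMod 2) 2 β1) := by
    intro x y hxy
    rw [hβ1, HH.map_comp, HH.map_comp] at hxy
    exact hbij.1 (hβ hxy)
  have hd1 : ∀ s t, α1 s ≠ β1 t := fun s t => hdis _ _
  -- a point of the sphere
  have s0 : S2 := ⟨![1, 0, 0], by simp [Fin.sum_univ_three]⟩
  -- a missed point
  obtain ⟨q, hqa, hqb⟩ : ∃ q : PN 2, q ∉ range α1 ∧ q ∉ range β1 := by
    by_contra hcon
    push Not at hcon
    have hclα : IsClosed (range α1) := (isCompact_range α1.continuous).isClosed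
    have hclβ : IsClosed (range β1) := (isCompact_range β1.continuous).isClosed
    have hcompl : range α1 = (range β1)ᶜ := by
      ext x
      constructor
      · rintro ⟨s, rfl⟩ ⟨t, ht⟩
        exact hd1 s t ht.symm
      · intro hx
        by_contra hxa
        exact hx (hcon x hxa)
    have hclopen : IsClopen (range α1) := ⟨hclα, by rw [hcompl]; exact hclβ.isOpen_compl⟩
    rcases isClopen_iff.1 hclopen with h | h
    · have : α1 s0 ∈ range α1 := ⟨s0, rfl⟩
      rw [h] at this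
      exact this
    · have : β1 s0 ∈ range α1 := by rw [h]; trivial
      obtain ⟨s, hs⟩ := this
      exact hd1 s s0 hs
  obtain ⟨e, he⟩ := hh 2 q q0
  have hmα : ∀ s, e (α1 s) ∈ (({q0} : Set (PN 2))ᶜ) := by
    intro s hs
    rw [mem_singleton_iff, ← he] at hs
    exact hqa ⟨s, e.injective hs⟩
  have hmβ : ∀ s, e (β1 s) ∈ (({q0} : Set (PN 2))ᶜ) := by
    intro s hs
    rw [mem_singleton_iff, ← he] at hs
    exact hqb ⟨s, e.injective hs⟩
  let α2 : C(S2, NN) := ⟨fun s => ⟨e (α1 s), hmα s⟩, by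
    exact Continuous.subtype_mk (e.continuous.comp α1.continuous) _⟩
  let β2 : C(S2, NN) := ⟨fun s => ⟨e (β1 s), hmβ s⟩, by
    exact Continuous.subtype_mk (e.continuous.comp β1.continuous) _⟩
  have hejs : Function.Bijective (HH.map (ZMod 2) 2 (e : C(PN 2, PN 2))) := by
    refine Pool.Agent.H4.LB.bij_of_homotopic hHM (ZMod 2) (e : C(PN 2, PN 2))
      (e.symm : C(PN 2, PN 2)) ?_ ?_ 2
    · have : (e.symm : C(PN 2, PN 2)).comp (e : C(PN 2, PN 2)) = ContinuousMap.id _ := by
        ext1 x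
        exact e.symm_apply_apply x
      rw [this]
    · have : (e : C(PN 2, PN 2)).comp (e.symm : C(PN 2, PN 2)) = ContinuousMap.id _ := by
        ext1 x
        exact e.apply_symm_apply x
      rw [this]
  refine hN α2 β2 ?_ ?_ ?_
  · intro s t h
    exact hd1 s t (e.injective (congrArg Subtype.val h))
  · have h1 : (inc (({q0} : Set (PN 2))ᶜ)).comp α2 = (e : C(PN 2, PN 2)).comp α1 := by
      ext1 x
      rfl
    rw [h1]
    intro x y hxy
    rw [HH.map_comp (ZMod 2) 2 α1, HH.map_comp (ZMod 2) 2 α1] at hxy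
    exact hi1 (hejs.1 hxy)
  · have h1 : (inc (({q0} : Set (PN 2))ᶜ)).comp β2 = (e : C(PN 2, PN 2)).comp β1 := by
      ext1 x
      rfl
    rw [h1]
    intro x y hxy
    rw [HH.map_comp (ZMod 2) 2 β1, HH.map_comp (ZMod 2) 2 β1] at hxy
    exact hi2 (hejs.1 hxy)

end Pool.Agent.H90.KU
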