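import Pool.Agent.H61.KU.TT

/-!
# Kuiper board, module UU2
-/

open Topology Set
open Pool.Agent.H59 Pool.Agent.H64.LB Pool.Agent.H24.LB Pool.Agent.H61.KU
open scoped unitInterval

namespace Pool.Agent.H90.KU

theorem one_inj {d d' : Fin 2 → ℂ} (h : P3 d 1 = P3 d' 1) : d = d' := by
  obtain ⟨a, ha, h1, h2⟩ := (P3_eq_iff (by simp) (by simp)).1 h
  rw [mul_one] at h2
  rw [h1, ← h2, one_smul]

theorem q0_notin_iota : q0 ∉ range iota := by
  rintro ⟨l, hl⟩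
  obtain ⟨u, hu, rfl⟩ := exists_P2 l
  rw [iota_P2 hu] at hl
  exact P3_ne_q0 hu hl

theorem P3_one_notin (d : Fin 2 → ℂ) : P3 d 1 ∉ range iota := by
  rintro ⟨l, hl⟩
  obtain ⟨u, hu, rfl⟩ := exists_P2 l
  rw [iota_P2 hu] at hl
  obtain ⟨a, ha, h1, h2⟩ := (P3_eq_iff (fun h => hu h.1) (by simp)).1 hl
  rw [mul_zero] at h2
  exact one_ne_zero h2

/-- the affine part as a set in `S2 × PN 2` -/
def AA (δ : C(S2, PN 1)) : Set (S2 × PN 2) :=
  {p | p ∈ PDs δ ∧ p.2 ≠ q0 ∧ p.2 ∉ range iota}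

theorem AA_mk {δ : C(S2, PN 1)} {s : S2} {v : NZ 2} (h : (s, pt v) ∈ AA δ) :
    v.1 2 ≠ 0 ∧ (![v.1 0, v.1 1] : Fin 2 → ℂ) ≠ 0 ∧ P2 ![v.1 0, v.1 1] = δ s := by
  obtain ⟨⟨u, c, hn, he, hu⟩, hq, hi⟩ := h
  have hP : pt v = P3 ![v.1 0, v.1 1] (v.1 2) := by
    have h3 := v3_zero v.1
    rw [P3_eq (by rw [h3]; exact v.2)]
    exact congrArg pt (Subtype.ext h3.symm)
  change pt v ≠ q0 at hq
  change pt v ∉ range iota at hi
  change pt v = P3 u c at he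
  have hv0 : (![v.1 0, v.1 1] : Fin 2 → ℂ) ≠ 0 := pt_ne_q0_iff.1 hq
  have hu0 : u ≠ 0 := by
    rintro rfl
    apply hq
    rw [he]
    exact P3_zero (fun hc => hn ⟨rfl, hc⟩)
  have hδ : P2 u = δ s := by
    rcases hu with h | h
    · exact absurd h hu0
    · exact h
  rw [hP] at he
  obtain ⟨a, ha, h1, h2⟩ := (P3_eq_iff (fun h => hv0 h.1) hn).1 he
  refine ⟨?_, hv0, ?_⟩
  · intro h0
    apply hi
    refine ⟨P2 ![v.1 0, v.1 1], ?_⟩
    rw [iota_P2 hv0, hP, h0]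
  · rw [← hδ, h1]
    exact (P2_smul a ha hv0).symm

theorem exists_AA {δ : C(S2, PN 1)} (p : S2 × PN 2) (h : p ∈ AA δ) :
    ∃ d : NZ 1, pt d = δ p.1 ∧ P3 d.1 1 = p.2 := by
  obtain ⟨s, y⟩ := p
  obtain ⟨v, rfl⟩ := exists_pt y
  obtain ⟨h2, h0, hδ⟩ := AA_mk h
  refine ⟨⟨(v.1 2)⁻¹ • ![v.1 0, v.1 1], smul_ne_zero (inv_ne_zero h2) h0⟩, ?_, ?_⟩
  · change _ = δ s
    rw [← hδ, ← P2_smul (v.1 2)⁻¹ (inv_ne_zero h2) h0, P2_eq]
  · change P3 ((v.1 2)⁻¹ • ![v.1 0, v.1 1]) 1 = pt v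
    have hP : pt v = P3 ![v.1 0, v.1 1] (v.1 2) := by
      have h3 := v3_zero v.1
      rw [P3_eq (by rw [h3]; exact v.2)]
      exact congrArg pt (Subtype.ext h3.symm)
    rw [hP, ← P3_smul (v.1 2)⁻¹ (inv_ne_zero h2) (fun h => h0 h.1), inv_mul_cancel₀ h2]

/-- the inverse of the coordinates on the affine part -/
noncomputable def FF (δ : C(S2, PN 1)) (p : ↥(AA δ)) : UU δ :=
  ⟨(p.1.1, (exists_AA p.1 p.2).choose), (exists_AA p.1 p.2).choose_spec.1⟩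

theorem FF_eq (δ : C(S2, PN 1)) (p : ↥(AA δ)) (d : NZ 1) (h : P3 d.1 1 = p.1.2) :
    (FF δ p).1 = (p.1.1, d) := by
  have h1 := (exists_AA p.1 p.2).choose_spec.2
  have h2 : (exists_AA p.1 p.2).choose = d := Subtype.ext (one_inj (h1.trans h.symm))
  change (p.1.1, (exists_AA p.1 p.2).choose) = (p.1.1, d)
  rw [h2]

theorem continuous_FF (δ : C(S2, PN 1)) : Continuous (FF δ) := by
  refine continuous_desc (AA δ) (FF δ) ?_
  refine continuous_induced_rng.2 ?_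
  let G : {p : S2 × NZ 2 // (p.1, pt p.2) ∈ AA δ} → S2 × NZ 1 := fun p =>
    (p.1.1, ⟨(p.1.2.1 2)⁻¹ • ![p.1.2.1 0, p.1.2.1 1],
      smul_ne_zero (inv_ne_zero (AA_mk p.2).1) (AA_mk p.2).2.1⟩)
  have hG : Continuous G := by
    have hv : ∀ i, Continuous fun p : {p : S2 × NZ 2 // (p.1, pt p.2) ∈ AA δ} => p.1.2.1 i :=
      fun i => (continuous_apply i).comp (continuous_subtype_val.comp
        (continuous_snd.comp continuous_subtype_val))
    refine Continuous.prodMk (continuous_fst.comp continuous_subtype_val) ?_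
    refine Continuous.subtype_mk ?_ _
    refine Continuous.smul ((hv 2).inv₀ fun p => (AA_mk p.2).1) ?_
    refine continuous_pi fun i => ?_
    fin_cases i
    · exact hv 0
    · exact hv 1
  refine hG.congr fun p => ?_
  symm
  refine FF_eq δ ⟨(p.1.1, pt p.1.2), p.2⟩ _ ?_
  change P3 ((p.1.2.1 2)⁻¹ • ![p.1.2.1 0, p.1.2.1 1]) 1 = pt p.1.2
  obtain ⟨h2, h0, -⟩ := AA_mk p.2
  have hP : pt p.1.2 = P3 ![p.1.2.1 0, p.1.2.1 1] (p.1.2.1 2) := by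
    have h3 := v3_zero p.1.2.1
    rw [P3_eq (by rw [h3]; exact p.1.2.2)]
    exact congrArg pt (Subtype.ext h3.symm)
  rw [hP, ← P3_smul (p.1.2.1 2)⁻¹ (inv_ne_zero h2) (fun h => h0 h.1), inv_mul_cancel₀ h2]

theorem pf_uu2 (hM : T_MV) (h3 : T_PD3) (h2 : T_PD2) : T_UU2 := by
  intro δ hδ
  obtain ⟨M⟩ := hM (ZMod 2)
  obtain ⟨ho1, ho2, h12⟩ := h2 δ hδ
  have h3' := h3 δ
  set O1 : Set (PD δ) := {p : PD δ | p.1.2 ≠ q0} with hO1
  set O2 : Set (PD δ) := {p : PD δ | p.1.2 ∉ range iota} with hO2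
  have hU : O1 ∪ O2 = univ := by
    refine eq_univ_of_forall fun p => ?_
    by_cases h : p.1.2 = q0
    · refine Or.inr ?_
      change p.1.2 ∉ range iota
      rw [h]
      exact q0_notin_iota
    · exact Or.inl h
  have key : ∀ w : HH (ZMod 2) 2 ↥(O1 ∩ O2), w = 0 := by
    intro w
    have e1 := (M.exact_sum _ O1 O2 ho1 ho2 hU 2 (HH.map (ZMod 2) 2 (incL O1 O2) w)
      (- HH.map (ZMod 2) 2 (incR O1 O2) w)).2 ⟨w, rfl, rfl⟩
    obtain ⟨e2, e3⟩ := h12 _ _ e1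
    rw [neg_eq_zero] at e3
    obtain ⟨z, hz⟩ := (M.exact_inter _ O1 O2 ho1 ho2 hU 2 w).1 ⟨e2, e3⟩
    rw [← hz, Subsingleton.elim z 0, map_zero]
  -- the two maps
  let f : C(UU δ, ↥(O1 ∩ O2)) :=
    ⟨fun x => ⟨⟨(x.1.1, P3 x.1.2.1 1), ⟨x.1.2.1, 1, by simp, rfl, Or.inr (by
      rw [P2_eq x.1.2.2]
      exact x.2)⟩⟩, ⟨P3_ne_q0 x.1.2.2, P3_one_notin _⟩⟩, by
      refine Continuous.subtype_mk (Continuous.subtype_mk ?_ _) _
      refine Continuous.prodMk (continuous_fst.comp continuous_subtype_val) ?_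
      refine continuous_P3 (continuous_subtype_val.comp
        (continuous_snd.comp continuous_subtype_val)) continuous_const ?_
      intro x hx
      exact one_ne_zero hx.2⟩
  let g : C(↥(O1 ∩ O2), UU δ) :=
    ⟨fun x => FF δ ⟨x.1.1, ⟨x.1.2, x.2.1, x.2.2⟩⟩, by
      refine (continuous_FF δ).comp ?_
      exact Continuous.subtype_mk (continuous_subtype_val.comp continuous_subtype_val) _⟩
  have hgf : g.comp f = ContinuousMap.id _ := by
    ext1 x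
    refine Subtype.ext ?_
    exact FF_eq δ _ x.1.2 rfl
  refine ⟨fun a b => ?_⟩
  have ha : a = 0 := by
    rw [← HH.map_id (ZMod 2) 2 a, ← hgf, HH.map_comp, key (HH.map (ZMod 2) 2 f _), map_zero]
  have hb : b = 0 := by
    rw [← HH.map_id (ZMod 2) 2 b, ← hgf, HH.map_comp, key (HH.map (ZMod 2) 2 f _), map_zero]
  rw [ha, hb]

end Pool.Agent.H90.KU
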