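import Pool.Agent.H61.KU.TT

/-!
# Kuiper board, module ZER
-/

open Topology Set
open Pool.Agent.H59 Pool.Agent.H64.LB Pool.Agent.H24.LB Pool.Agent.H61.KU
open scoped unitInterval

namespace Pool.Agent.H90.KU

theorem perp_ne (l : PN 1) : perp l ≠ l := by
  obtain ⟨u, hu, rfl⟩ := exists_P2 l
  rw [perp_P2 hu]
  intro h
  obtain ⟨a, ha, he⟩ := (P2_eq_iff hu (JJ_ne hu)).1 h.symm
  have h1 := hp_JJ u
  rw [he] at h1
  have h2 : hp u (a • u) = a * hp u u := by
    simp only [hp, Pi.smul_apply, smul_eq_mul]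
    ring
  rw [h2] at h1
  exact (mul_ne_zero ha (hp_self_ne hu)) h1

theorem isOpen_Gh (δ : C(S2, PN 1)) : IsOpen (Gh δ) := by
  have : T2Space (PN 1) := (pnt 1).2
  exact isOpen_ne_fun continuous_snd (δ.continuous.comp continuous_fst)

theorem isOpen_GA (α : C(S2, NN)) : IsOpen (GA α) := by
  have : T2Space (PN 1) := (pnt 1).2
  exact isOpen_ne_fun (rho.continuous.comp continuous_snd)
    (rho.continuous.comp (α.continuous.comp continuous_fst))

theorem isOpen_VA (α : C(S2, NN)) : IsOpen (VA α) := by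
  have : T2Space (PN 1) := (pnt 1).2
  have : T2Space (PN 2) := (pnt 2).2
  have h1 : IsOpen {p : S2 × NN | p.2 ≠ α p.1} :=
    isOpen_ne_fun continuous_snd (α.continuous.comp continuous_fst)
  have h2 : IsOpen {p : S2 × NN | rho p.2 ≠ perp (rho (α p.1))} :=
    isOpen_ne_fun (rho.continuous.comp continuous_snd)
      (perp.continuous.comp (rho.continuous.comp (α.continuous.comp continuous_fst)))
  exact h1.inter h2

theorem DA_eq (α : C(S2, NN)) : DA α = GA α ∪ VA α := by
  ext p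
  constructor
  · intro hp
    by_cases h : rho p.2 = rho (α p.1)
    · refine Or.inr ⟨hp, ?_⟩
      rw [h]
      exact (perp_ne _).symm
    · exact Or.inl h
  · rintro (h | h)
    · intro he
      apply h
      change p.2 = α p.1 at he
      rw [he]
    · exact h.1

theorem pf_zer (hM : T_MVS) (hG : T_GH4) (hO : T_OV) : T_ZER := by
  intro α hU
  have hO' := hO α hU
  obtain ⟨M⟩ := hM (ZMod 2)
  rw [DA_eq α]
  intro w
  set δ : C(S2, PN 1) := rho.comp α with hδ
  have hUm : MapsTo Prho (GA α) (Gh δ) := fun p hp => hp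
  have hVm : MapsTo Prho (VA α) (Gh (perp.comp δ)) := fun p hp => hp.2
  have h1 : M.δ _ (GA α) (VA α) 3 w = 0 := by
    have h2 := (M.exact_inter _ (GA α) (VA α) (isOpen_GA α) (isOpen_VA α) 3
      (M.δ _ (GA α) (VA α) 3 w)).2 ⟨w, rfl⟩
    exact hO' (by rw [h2.2, map_zero])
  have h3 := M.natural _ _ (GA α) (VA α) (Gh δ) (Gh (perp.comp δ)) (isOpen_GA α) (isOpen_VA α)
    (isOpen_Gh δ) (isOpen_Gh _) Prho hUm hVm 3 w
  rw [h1, map_zero] at h3
  obtain ⟨a, b, hab⟩ := (M.exact_union _ (Gh δ) (Gh (perp.comp δ)) (isOpen_Gh δ) (isOpen_Gh _) 3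
    _).2 h3
  have := hG δ
  have := hG (perp.comp δ)
  rw [Subsingleton.elim a 0, Subsingleton.elim b 0, map_zero, map_zero, add_zero] at hab
  have h4 : Prho.comp (inc (GA α ∪ VA α)) =
      (inc (Gh δ ∪ Gh (perp.comp δ))).comp (res Prho (mapsTo_union hUm hVm)) := by
    ext1 p
    rfl
  rw [h4, HH.map_comp, hab, map_zero]

end Pool.Agent.H90.KU
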